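import Mathlib

/-!
# Every `ℓ`-open Banach lattice is semiprojective

Let `A` be `ℓ`-open, `q : B → C` a quotient map of Banach lattices with `B` separable, and `φ` a
contractive lattice homomorphism `A → C`. The set of `t ∈ [0,1]` for which `t φ` is `1⁺`-liftable
contains `0`, is open since `A` is `ℓ`-open, and is closed because lifts can be rescaled. Hence `φ`
itself is `1⁺`-liftable to `B`, and so to all intermediate quotients.
-/

set_option autoImplicit false

open Set Topology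

namespace Pool.Agent.Results.MP_9b1016_an.OpenSemiprojective

/-- A real Banach lattice. -/
structure BLat where
  /-- The underlying space. -/
  carrier : Type
  [grp : NormedAddCommGroup carrier]
  [lat : Lattice carrier]
  [ord : IsOrderedAddMonoid carrier]
  [solid : HasSolidNorm carrier]
  [mod : NormedSpace ℝ carrier]
  [omod : IsOrderedModule ℝ carrier]
  [complete : CompleteSpace carrier]

attribute [instance] BLat.grp BLat.lat BLat.ord BLat.solid BLat.mod BLat.omod BLat.complete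

instance : CoeSort BLat Type := ⟨BLat.carrier⟩

/-- Lattice homomorphisms. -/
def IsLatHom {A B : BLat} (f : A →L[ℝ] B) : Prop := ∀ x, f |x| = |f x|

/-- `q : B → C` is a quotient map of Banach lattices: a surjective lattice homomorphism whose target
has the quotient norm; up to isometric lattice isomorphism these are the maps `B → B/I` for closed
ideals `I` of `B`, where `I` is the kernel of `q`. -/
def IsQuot {B C : BLat} (q : B →L[ℝ] C) : Prop :=
  IsLatHom q ∧ Function.Surjective q ∧ ∀ y, ‖y‖ = sInf {r : ℝ | ∃ x, q x = y ∧ r = ‖x‖}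

/-- `Hom₁(A, C)`: the lattice homomorphisms of norm at most one. -/
def Hom₁ (A C : BLat) : Type := {φ : A →L[ℝ] C // IsLatHom φ ∧ ‖φ‖ ≤ 1}

/-- The point-norm topology. -/
instance (A C : BLat) : TopologicalSpace (Hom₁ A C) :=
  TopologicalSpace.induced (fun φ (a : A) => φ.1 a) Pi.topologicalSpace

/-- `φ` is `1⁺`-liftable along `q`. -/
def Liftable {A B C : BLat} (q : B →L[ℝ] C) (φ : A →L[ℝ] C) : Prop :=
  ∀ ε : ℝ, 0 < ε → ∃ ψ : A →L[ℝ] B, IsLatHom ψ ∧ q.comp ψ = φ ∧ ‖ψ‖ ≤ 1 + ε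

/-- The Banach lattice `A` is `ℓ`-open. -/
def EllOpen (A : BLat) : Prop :=
  ∀ (B C : BLat) (q : B →L[ℝ] C), TopologicalSpace.SeparableSpace B → IsQuot q →
    IsOpen {φ : Hom₁ A C | Liftable q φ.1}

/-- The Banach lattice `A` is semiprojective. Here `C n` is `B/I_n` and `C'` is `B/I`. -/
def Semiprojective (A : BLat) : Prop :=
  ∀ (B : BLat) (C : ℕ → BLat) (C' : BLat) (q : ∀ n, B →L[ℝ] C n) (q' : B →L[ℝ] C')
    (p : ∀ n, C n →L[ℝ] C'), TopologicalSpace.SeparableSpace B → (∀ n, IsQuot (q n)) → IsQuot q' →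
    (∀ n, (p n).comp (q n) = q') → (∀ n x, q n x = 0 → q (n + 1) x = 0) →
    {x | q' x = 0} = closure (⋃ n, {x | q n x = 0}) →
    ∀ φ : A →L[ℝ] C', IsLatHom φ → ‖φ‖ ≤ 1 → ∃ n, ∀ ε : ℝ, 0 < ε →
      ∃ ψ : A →L[ℝ] C n, IsLatHom ψ ∧ (p n).comp ψ = φ ∧ ‖ψ‖ ≤ 1 + ε

theorem IsLatHom.smul {A B : BLat} {f : A →L[ℝ] B} (hf : IsLatHom f) {c : ℝ} (hc : 0 ≤ c) :
    IsLatHom (c • f) := by
  have habs : ∀ y : B, |c • y| = c • |y| := by
    intro y
    rcases hc.eq_or_lt with rfl | hc
    · simp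
    · have hle : ∀ (d : ℝ), 0 < d → ∀ z : B, |d • z| ≤ d • |z| := fun d hd z =>
        sup_le (smul_le_smul_of_nonneg_left (le_abs_self z) hd.le) (by
          rw [← smul_neg]; exact smul_le_smul_of_nonneg_left (neg_le_abs z) hd.le)
      refine le_antisymm (hle c hc y) ?_
      have h1 := hle c⁻¹ (inv_pos.mpr hc) (c • y)
      rw [smul_smul, inv_mul_cancel₀ hc.ne', one_smul] at h1
      have h2 := smul_le_smul_of_nonneg_left h1 hc.le
      rwa [smul_smul, mul_inv_cancel₀ hc.ne', one_smul] at h2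
  intro x
  have e1 : (c • f) |x| = c • f |x| := rfl
  have e2 : (c • f) x = c • f x := rfl
  rw [e1, e2, hf x, habs]

theorem IsLatHom.comp {A B C : BLat} {g : B →L[ℝ] C} {f : A →L[ℝ] B} (hg : IsLatHom g)
    (hf : IsLatHom f) : IsLatHom (g.comp f) := fun x => by
  rw [ContinuousLinearMap.comp_apply, ContinuousLinearMap.comp_apply, hf, hg]

theorem IsQuot.norm_le {B C : BLat} {q : B →L[ℝ] C} (hq : IsQuot q) : ‖q‖ ≤ 1 :=
  ContinuousLinearMap.opNorm_le_bound _ zero_le_one fun x => by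
    rw [one_mul, hq.2.2 (q x)]
    exact csInf_le ⟨0, by rintro _ ⟨z, -, rfl⟩; exact norm_nonneg z⟩ ⟨x, rfl, rfl⟩

/-- Everything is `1⁺`-liftable. -/
theorem EllOpen.liftable {A B C : BLat} (hA : EllOpen A) {q : B →L[ℝ] C}
    (hB : TopologicalSpace.SeparableSpace B) (hq : IsQuot q) {φ : A →L[ℝ] C} (hφ : IsLatHom φ)
    (hφ1 : ‖φ‖ ≤ 1) : Liftable q φ := by
  let Φ : unitInterval → Hom₁ A C := fun t => ⟨(t : ℝ) • φ, hφ.smul t.2.1, by
    rw [norm_smul, Real.norm_of_nonneg t.2.1]
    exact mul_le_one₀ t.2.2 (norm_nonneg _) hφ1⟩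
  have hΦ : Continuous Φ := by
    rw [continuous_induced_rng, continuous_pi_iff]
    intro a
    have : Continuous fun t : unitInterval => (t : ℝ) • φ a := by fun_prop
    exact this
  let S : Set unitInterval := {t | Liftable q ((t : ℝ) • φ)}
  have hopen : IsOpen S := (hA B C q hB hq).preimage hΦ
  have h0 : (0 : unitInterval) ∈ S := by
    intro ε hε
    refine ⟨0, fun x => by simp, ?_, ?_⟩
    · ext x; simp
    · rw [norm_zero]; linarith
  have hclosed : IsClosed S := by
    refine isClosed_of_closure_subset fun t ht => ?_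
    by_cases ht0 : (t : ℝ) = 0
    · have : t = 0 := Subtype.ext ht0
      rw [this]; exact h0
    · have htpos : 0 < (t : ℝ) := lt_of_le_of_ne t.2.1 (Ne.symm ht0)
      intro ε hε
      have hratio : (t : ℝ) * ((1 + ε / 2) / (1 + ε)) < t := by
        have : (1 + ε / 2) / (1 + ε) < 1 := by
          rw [div_lt_one (by linarith)]; linarith
        nlinarith
      have hU : IsOpen {s : unitInterval | (t : ℝ) * ((1 + ε / 2) / (1 + ε)) < s} :=
        isOpen_lt continuous_const continuous_subtype_val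
      obtain ⟨s, hs1, hs2⟩ := mem_closure_iff.mp ht _ hU hratio
      have hs3 : (t : ℝ) * ((1 + ε / 2) / (1 + ε)) < s := hs1
      have hspos : 0 < (s : ℝ) := lt_of_le_of_lt (by positivity) hs3
      obtain ⟨ψ, hψ, hψ2, hψ3⟩ := hs2 (ε / 2) (by positivity)
      refine ⟨((t : ℝ) / s) • ψ, hψ.smul (by positivity), ?_, ?_⟩
      · rw [ContinuousLinearMap.comp_smul, hψ2, smul_smul, div_mul_cancel₀ _ hspos.ne']
      · rw [norm_smul, Real.norm_of_nonneg (by positivity)]
        calc (t : ℝ) / s * ‖ψ‖ ≤ (t : ℝ) / s * (1 + ε / 2) := by gcongr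
          _ ≤ 1 + ε := by
              rw [div_mul_eq_mul_div, div_le_iff₀ hspos]
              rw [← mul_div_assoc, div_lt_iff₀ (by linarith)] at hs3
              linarith
  have huniv : S = univ := IsClopen.eq_univ ⟨hclosed, hopen⟩ ⟨0, h0⟩
  have h1 : (1 : unitInterval) ∈ S := by rw [huniv]; exact mem_univ _
  have h2 : Liftable q ((1 : ℝ) • φ) := h1
  rwa [one_smul] at h2

/-- **Result.** Every `ℓ`-open Banach lattice is semiprojective. -/
theorem result (A : BLat) (hA : EllOpen A) : Semiprojective A := by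
  intro B C C' q q' p hB hq hq' hp _ _ φ hφ hφ1
  refine ⟨0, fun ε hε => ?_⟩
  obtain ⟨ψ, hψ, hψ2, hψ3⟩ := hA.liftable hB hq' hφ hφ1 ε hε
  refine ⟨(q 0).comp ψ, (hq 0).1.comp hψ, ?_, ?_⟩
  · rw [← ContinuousLinearMap.comp_assoc, hp, hψ2]
  · calc ‖(q 0).comp ψ‖ ≤ ‖q 0‖ * ‖ψ‖ := ContinuousLinearMap.opNorm_comp_le _ _
      _ ≤ 1 * (1 + ε) := by gcongr; exact (hq 0).norm_le
      _ = 1 + ε := one_mul _

end Pool.Agent.Results.MP_9b1016_an.OpenSemiprojective
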